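import Pool.Agent.Helper95.SW.Cnt

/-!
# Project SW, module Book B2: the enumerations of the names and of the pairs of indices
-/

set_option autoImplicit false

namespace Pool.Agent.Helper48.SW

open Cardinal Set Pool.Agent.Helper2.SW Pool.Agent.Helper95.SW

variable {δ : Cardinal.{0}} {I : Type} [LinearOrder I]

theorem mk_Iic_le (hδ : ℵ₀ ≤ δ) (hI : IsSuccType δ I) (b : I) : #(Iic b) ≤ δ := by
  have h6 : Iic b ⊆ insert b (Iio b) := by
    intro x hx
    rcases eq_or_lt_of_le hx with h | h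
    · exact Or.inl h
    · exact Or.inr h
  refine (mk_le_mk_of_subset h6).trans (mk_insert_le.trans ?_)
  exact (add_le_add (hI.small b) (one_le_aleph0.trans hδ)).trans (add_eq_self hδ).le

/-- an enumeration in which every element occurs arbitrarily late -/
theorem exists_often (hδ : ℵ₀ ≤ δ) (hI : IsSuccType δ I) (α : Type) [Nonempty α]
    (hα : #α ≤ #I) : ∃ e : I → α, ∀ a b, ∃ c, b < c ∧ e c = a := by
  have hlt : δ < #I := lt_mk hI
  have hinf : ℵ₀ ≤ #I := hδ.trans hlt.le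
  have h1 : #(α × I) ≤ #I := by
    rw [mk_prod, lift_id, lift_id]
    exact (mul_le_mul' hα le_rfl).trans (mul_eq_self hinf).le
  have hne : Nonempty I := by
    rw [← mk_ne_zero_iff]
    intro h
    rw [h] at hlt
    exact not_lt_zero hlt
  obtain ⟨⟨f, hf⟩⟩ := h1
  have : Nonempty (α × I) := inferInstance
  let g : I → α × I := Function.invFun f
  have hg : Function.Surjective g := Function.invFun_surjective hf
  refine ⟨fun c => (g c).1, fun a b => ?_⟩
  by_contra hcon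
  push Not at hcon
  choose k hk using fun i : I => hg (a, i)
  have h2 : ∀ i, k i ∈ Iic b := by
    intro i
    rw [mem_Iic]
    by_contra h
    exact hcon (k i) (not_le.1 h) (by rw [hk])
  have h3 : #I ≤ #(Iic b) := by
    refine mk_le_of_injective (f := fun i => (⟨k i, h2 i⟩ : Iic b)) fun i j hij => ?_
    have : k i = k j := congrArg Subtype.val hij
    have h4 := hk i
    rw [this, hk j] at h4
    exact (congrArg Prod.snd h4).symm
  exact absurd (h3.trans (mk_Iic_le hδ hI b)) (not_le.2 hlt)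

theorem supp_finite {C : Type} (p : Raw C I) : p.supp.Finite := by
  have : p.supp ⊆ {s | p.f s ≠ Dat.emp} ∪ ⋃ s ∈ {s | p.f s ≠ Dat.emp}, ((p.f s).u : Set I) := by
    rintro x (hx | ⟨s, hs⟩)
    · exact Or.inl hx
    · refine Or.inr (mem_biUnion (x := s) ?_ hs)
      intro h
      rw [h] at hs
      simp [Dat.emp] at hs
  refine Set.Finite.subset ?_ this
  exact p.fin.union (p.fin.biUnion fun s _ => Finset.finite_toSet _)

theorem on_of_supp {C : Type} {p : Raw C I} {X : Set I} (h : p.supp ⊆ X) : p.On X :=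
  ⟨fun _ hs => h (Or.inl hs), fun s _ hx => h (Or.inr ⟨s, hx⟩)⟩

/-- a small family of small sets of conditions is bounded -/
theorem exists_on {C : Type} (hδ : IsInaccessible δ) (hI : IsSuccType δ I)
    (a : ℕ → Set (Raw C I)) (ha : ∀ n, #(a n) < δ) : ∃ b, ∀ n, ∀ p ∈ a n, p.On (Iio b) := by
  have hω : ℵ₀ < δ := hδ.aleph0_lt
  have h1 : #(⋃ n, ⋃ p ∈ a n, p.supp : Set I) ≤ δ := by
    refine (mk_iUnion_le _).trans ?_
    refine (mul_le_mul' (mk_le_aleph0 (α := ℕ)) (ciSup_le' (a := δ) fun n => ?_)).trans ?_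
    · refine (mk_biUnion_le _ _).trans ?_
      refine (mul_le_mul' (ha n).le (ciSup_le' (a := δ) fun p => ?_)).trans
        (mul_eq_self hω.le).le
      exact ((supp_finite p.1).lt_aleph0.le).trans hω.le
    · exact (mul_le_mul' hω.le le_rfl).trans (mul_eq_self hω.le).le
  obtain ⟨b, hb⟩ := hI.bdd _ h1
  refine ⟨b, fun n p hp => on_of_supp fun x hx => hb x ?_⟩
  exact mem_iUnion.2 ⟨n, mem_biUnion hp hx⟩

theorem mk_names_on {C : Type} [Preorder C] (hδ : IsInaccessible δ) (hI : IsSuccType δ I)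
    (hC : #C ≤ δ) (b : I) : #{a : ℕ → Set (Raw C I) // (∀ n, #(a n) < δ) ∧
      ∀ n, ∀ p ∈ a n, p.On (Iio b)} ≤ δ := by
  have hω : ℵ₀ < δ := hδ.aleph0_lt
  have hW : #(ℕ × {p : Raw C I // p.On (Iio b)}) ≤ δ :=
    mk_pr hω.le (mk_cnt hω.le) (mk_raw_on hω.le hC (Iio b) (hI.small b))
  refine le_trans (mk_le_of_injective (f := fun a : {a : ℕ → Set (Raw C I) //
      (∀ n, #(a n) < δ) ∧ ∀ n, ∀ p ∈ a n, p.On (Iio b)} =>
    (⟨{q : ℕ × {p : Raw C I // p.On (Iio b)} | q.2.1 ∈ a.1 q.1}, ?_⟩ :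
      {A : Set (ℕ × {p : Raw C I // p.On (Iio b)}) // #A < δ})) ?_)
    (mk_small_subsets hδ _ hW)
  · have h2 : {q : ℕ × {p : Raw C I // p.On (Iio b)} | q.2.1 ∈ a.1 q.1} ⊆
        ⋃ n : ℕ, (fun p : {p : Raw C I // p.On (Iio b)} => (n, p)) ''
          {p | p.1 ∈ a.1 n} := by
      rintro ⟨n, p⟩ h
      exact mem_iUnion.2 ⟨n, p, h, rfl⟩
    refine (mk_le_mk_of_subset h2).trans_lt ?_
    refine (mk_iUnion_le_sum_mk).trans_lt ?_
    refine (sum_lt_of_isRegular hδ.isRegular ?_ fun n => ?_)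
    · rw [mk_nat]
      exact hω
    · refine mk_image_le.trans_lt (lt_of_le_of_lt ?_ (a.2.1 n))
      exact mk_le_of_injective (f := fun p : {p : {p : Raw C I // p.On (Iio b)} |
        p.1 ∈ a.1 n} => (⟨p.1.1, p.2⟩ : a.1 n)) fun p q h => by
          have h' := Subtype.mk.inj h
          exact Subtype.ext (Subtype.ext h')
  · rintro ⟨a, ha, ha'⟩ ⟨c, hc, hc'⟩ h
    apply Subtype.ext
    funext n
    have h3 := congrArg Subtype.val h
    simp only at h3
    ext p
    constructor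
    · intro hp
      have : ((n, ⟨p, ha' n p hp⟩) : ℕ × {p : Raw C I // p.On (Iio b)}) ∈
        {q : ℕ × {p : Raw C I // p.On (Iio b)} | q.2.1 ∈ a q.1} := hp
      rw [h3] at this
      exact this
    · intro hp
      have : ((n, ⟨p, hc' n p hp⟩) : ℕ × {p : Raw C I // p.On (Iio b)}) ∈
        {q : ℕ × {p : Raw C I // p.On (Iio b)} | q.2.1 ∈ c q.1} := hp
      rw [← h3] at this
      exact this

theorem mk_names {C : Type} [Preorder C] (hδ : IsInaccessible δ) (hI : IsSuccType δ I)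
    (hC : #C ≤ δ) : #{a : ℕ → Set (Raw C I) // ∀ n, #(a n) < δ} ≤ #I := by
  have hω : ℵ₀ < δ := hδ.aleph0_lt
  have hlt : δ < #I := lt_mk hI
  choose b hb using fun a : {a : ℕ → Set (Raw C I) // ∀ n, #(a n) < δ} =>
    exists_on hδ hI a.1 a.2
  refine le_trans (mk_le_of_injective (f := fun a : {a : ℕ → Set (Raw C I) // ∀ n, #(a n) < δ} =>
    (⟨b a, ⟨a.1, a.2, hb a⟩⟩ : Σ b : I, {a : ℕ → Set (Raw C I) // (∀ n, #(a n) < δ) ∧
      ∀ n, ∀ p ∈ a n, p.On (Iio b)})) ?_) ?_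
  · intro a c h
    have : a.1 = c.1 := by
      have := congrArg (fun q : Σ b : I, {a : ℕ → Set (Raw C I) // (∀ n, #(a n) < δ) ∧
        ∀ n, ∀ p ∈ a n, p.On (Iio b)} => q.2.1) h
      exact this
    exact Subtype.ext this
  · rw [mk_sigma]
    refine (sum_le_sum _ (fun _ => δ) fun c => mk_names_on hδ hI hC c).trans ?_
    rw [sum_const, lift_id, lift_id]
    exact (mul_le_mul' le_rfl hlt.le).trans (mul_eq_self (hω.le.trans hlt.le)).le

end Pool.Agent.Helper48.SW

namespace Pool.Agent.Helper2.SW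

open Cardinal Set Pool.Agent.Helper48.SW Pool.Agent.Helper95.SW

/-- Book B2: the enumeration `A` of the names and the enumeration `pr` of the pairs of indices. -/
theorem exists_enum {C I : Type} [Preorder C] [LinearOrder I] [WellFoundedLT I]
    {δ : Cardinal.{0}} (hδ : IsInaccessible δ) (hI : IsSuccType δ I) (hC : #C ≤ δ) :
    ∃ (A : I → ℕ → Set (Raw C I)) (pr : I → I × I), (∀ b n, #(A b n) < δ) ∧
      (∀ s, (pr s).1 < (pr s).2) ∧ (∀ b b', b < b' → ∃ s, pr s = (b, b')) ∧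
      (∀ s b, b ≤ (pr s).2 → ∀ n, ∀ p ∈ A b n, p.On (Iio s)) ∧
      ∀ a : ℕ → Set (Raw C I), (∀ n, #(a n) < δ) → ∃ b, A b = a := by
  classical
  have hω : ℵ₀ < δ := hδ.aleph0_lt
  have hlt : δ < #I := lt_mk hI
  have hpos : (0 : Cardinal.{0}) < δ := (zero_lt_one.trans one_lt_aleph0).trans hω
  have hne : Nonempty {a : ℕ → Set (Raw C I) // ∀ n, #(a n) < δ} :=
    ⟨⟨fun _ => ∅, fun _ => by rw [mk_eq_zero]; exact hpos⟩⟩
  obtain ⟨e, he⟩ := exists_often hω.le hI {a : ℕ → Set (Raw C I) // ∀ n, #(a n) < δ}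
    (mk_names hδ hI hC)
  -- the first two elements
  obtain ⟨c0, -⟩ := hI.bdd ∅ (by rw [mk_eq_zero]; exact zero_le)
  obtain ⟨z0, hz0⟩ : ∃ z0 : I, ∀ x, z0 ≤ x := by
    obtain ⟨m, -, hm⟩ := WellFounded.has_min (wellFounded_lt (α := I)) Set.univ ⟨c0, mem_univ _⟩
    exact ⟨m, fun x => not_lt.1 (hm x (mem_univ _))⟩
  obtain ⟨z1, hz1, hz1'⟩ : ∃ z1 : I, z0 < z1 ∧ ∀ x, z0 < x → z1 ≤ x := by
    obtain ⟨c1, hc1⟩ := hI.bdd {z0} (by rw [mk_singleton]; exact one_lt_aleph0.le.trans hω.le)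
    obtain ⟨m, hm1, hm⟩ := WellFounded.has_min (wellFounded_lt (α := I)) (Ioi z0)
      ⟨c1, hc1 z0 rfl⟩
    exact ⟨m, hm1, fun x hx => not_lt.1 (hm x hx)⟩
  have hne2 : Nonempty {q : I × I // q.1 < q.2} := ⟨⟨(z0, z1), hz1⟩⟩
  have h2 : #{q : I × I // q.1 < q.2} ≤ #I := by
    refine (mk_subtype_le _).trans ?_
    rw [← mul_def]
    exact (mul_eq_self (hω.le.trans hlt.le)).le
  obtain ⟨k, hk⟩ := exists_often hω.le hI {q : I × I // q.1 < q.2} h2
  refine ⟨fun b => if (∀ n, ∀ p ∈ (e b).1 n, p.On (Iio b)) ∧ z1 < b then (e b).1 else fun _ => ∅,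
    fun s => if (k s).1.2 ≤ s then (k s).1 else (z0, z1), ?_, ?_, ?_, ?_, ?_⟩
  · intro b n
    by_cases h : (∀ n, ∀ p ∈ (e b).1 n, p.On (Iio b)) ∧ z1 < b
    · simp only [if_pos h]
      exact (e b).2 n
    · simp only [if_neg h]
      rw [mk_eq_zero]
      exact hpos
  · intro s
    by_cases h : (k s).1.2 ≤ s
    · simp only [if_pos h]
      exact (k s).2
    · simp only [if_neg h]
      exact hz1
  · intro b b' hbb
    obtain ⟨s, hs, hs'⟩ := hk ⟨(b, b'), hbb⟩ b'
    refine ⟨s, ?_⟩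
    have : (k s).1.2 ≤ s := by rw [hs']; exact hs.le
    show (if (k s).1.2 ≤ s then (k s).1 else (z0, z1)) = (b, b')
    rw [if_pos this, hs']
  · intro s b hb n p hp
    by_cases h : (∀ n, ∀ p ∈ (e b).1 n, p.On (Iio b)) ∧ z1 < b
    · simp only [if_pos h] at hp
      have h3 := h.1 n p hp
      have h4 : b ≤ s := by
        by_cases h5 : (k s).1.2 ≤ s
        · simp only [if_pos h5] at hb
          exact hb.trans h5
        · simp only [if_neg h5] at hb
          exact absurd h.2 (not_lt.2 hb)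
      exact ⟨fun t ht => (h3.1 t ht).trans_le h4, fun t x hx => (h3.2 t x hx).trans_le h4⟩
    · simp only [if_neg h] at hp
      exact absurd hp (by simp)
  · intro a ha
    obtain ⟨b0, hb0⟩ := exists_on hδ hI a ha
    obtain ⟨b, hb, hb'⟩ := he ⟨a, ha⟩ (max b0 z1)
    refine ⟨b, ?_⟩
    have h5 : b0 < b := (le_max_left _ _).trans_lt hb
    have h6 : z1 < b := (le_max_right _ _).trans_lt hb
    have h7 : (∀ n, ∀ p ∈ (e b).1 n, p.On (Iio b)) ∧ z1 < b := by
      refine ⟨fun n p hp => ?_, h6⟩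
      rw [hb'] at hp
      have h3 := hb0 n p hp
      exact ⟨fun t ht => (h3.1 t ht).trans h5, fun t x hx => (h3.2 t x hx).trans h5⟩
    show (if (∀ n, ∀ p ∈ (e b).1 n, p.On (Iio b)) ∧ z1 < b then (e b).1 else fun _ => ∅) = a
    rw [if_pos h7, hb']

end Pool.Agent.Helper2.SW
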